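import Pool.Agent.H7.GF.Targets3

/-! # MP_cd65c5_nt, module ELL: square values of a cubic polynomial -/

set_option autoImplicit false

namespace Pool.Agent.H36.GF

open Pool.Agent.H7.GF Polynomial

section

variable {p : ℕ} [Fact p.Prime]

/-- nonresidues among the values of a cubic -/
lemma card_nonres (hcs : T_CS3) (hp : 28561 ≤ p) (h : (ZMod p)[X]) (h3 : h.natDegree = 3)
    (hs : Squarefree h) (J : ZMod p) :
    (p : ℝ) / 4 ≤ ((Finset.univ.filter fun y : ZMod p =>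
      quadraticChar (ZMod p) (h.eval (y - J)) = -1).card : ℝ) := by
  classical
  set Z := Finset.univ.filter fun y : ZMod p => quadraticChar (ZMod p) (h.eval (y - J)) = -1 with hZ
  set W := Finset.univ.filter fun y : ZMod p => h.eval (y - J) = 0 with hW
  have h0 : h ≠ 0 := by
    rintro rfl
    simp at h3
  have hW3 : W.card ≤ 3 := by
    have h1 : W.image (fun y => y - J) ⊆ h.roots.toFinset := by
      intro x hx
      obtain ⟨y, hy, rfl⟩ := Finset.mem_image.1 hx
      rw [Multiset.mem_toFinset, mem_roots h0]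
      exact (Finset.mem_filter.1 hy).2
    have h2 := Finset.card_le_card h1
    rw [Finset.card_image_of_injective _ (sub_left_injective)] at h2
    exact h2.trans ((Multiset.toFinset_card_le _).trans ((card_roots' h).trans h3.le))
  have h1 : ∀ y : ZMod p, (1 : ℤ) - quadraticChar (ZMod p) (h.eval (y - J)) ≤
      2 * (if quadraticChar (ZMod p) (h.eval (y - J)) = -1 then 1 else 0) +
        (if h.eval (y - J) = 0 then 1 else 0) := by
    intro y
    by_cases hy : h.eval (y - J) = 0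
    · rw [if_pos hy, hy, quadraticChar_zero]
      norm_num
    · rw [if_neg hy]
      rcases quadraticChar_dichotomy hy with e | e
      · rw [e]
        norm_num
      · rw [e]
        norm_num
  have h2 := Finset.sum_le_sum (s := (Finset.univ : Finset (ZMod p))) fun y _ => h1 y
  rw [Finset.sum_sub_distrib, Finset.sum_const, Finset.card_univ, ZMod.card,
    Finset.sum_add_distrib, ← Finset.mul_sum, Finset.sum_boole, Finset.sum_boole, nsmul_eq_mul,
    mul_one] at h2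
  have h4 : ∑ y : ZMod p, quadraticChar (ZMod p) (h.eval (y - J)) =
      ∑ x : ZMod p, quadraticChar (ZMod p) (h.eval x) :=
    Fintype.sum_equiv (Equiv.subRight J) _ _ fun y => rfl
  rw [h4] at h2
  have h5 := hcs p (by omega) h h3 hs
  have h6 := (abs_le.1 h5).2
  have h7 : (p : ℝ) - ((∑ x : ZMod p, quadraticChar (ZMod p) (h.eval x) : ℤ) : ℝ) ≤
      2 * (Z.card : ℝ) + (W.card : ℝ) := by exact_mod_cast h2
  have h8 : (W.card : ℝ) ≤ 3 := by exact_mod_cast hW3
  have hp1 : (28561 : ℝ) ≤ p := by exact_mod_cast hp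
  have hp0 : (0 : ℝ) < p := by linarith
  have h9 : (13 : ℝ) ≤ (p : ℝ) ^ (1 / 4 : ℝ) := by
    have e : (13 : ℝ) = (28561 : ℝ) ^ (1 / 4 : ℝ) := by
      rw [show (28561 : ℝ) = 13 ^ (4 : ℝ) by norm_num, ← Real.rpow_mul (by norm_num)]
      norm_num
    rw [e]
    exact Real.rpow_le_rpow (by norm_num) hp1 (by norm_num)
  have h10 : (p : ℝ) = (p : ℝ) ^ (1 / 4 : ℝ) * (p : ℝ) ^ (3 / 4 : ℝ) := by
    rw [← Real.rpow_add hp0]
    norm_num
  have h11 : (6 : ℝ) ≤ (p : ℝ) ^ (3 / 4 : ℝ) := by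
    have e : (p : ℝ) ^ (3 / 4 : ℝ) = ((p : ℝ) ^ (1 / 4 : ℝ)) ^ 3 := by
      rw [← Real.rpow_natCast, ← Real.rpow_mul hp0.le]
      norm_num
    rw [e]
    have : (13 : ℝ) ^ 3 ≤ ((p : ℝ) ^ (1 / 4 : ℝ)) ^ 3 := pow_le_pow_left₀ (by norm_num) h9 3
    linarith
  have h12 : 13 * (p : ℝ) ^ (3 / 4 : ℝ) ≤ p := by
    calc 13 * (p : ℝ) ^ (3 / 4 : ℝ) ≤ (p : ℝ) ^ (1 / 4 : ℝ) * (p : ℝ) ^ (3 / 4 : ℝ) := by
          gcongr
      _ = p := h10.symm
  linarith

end

/-- number of prime factors -/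
lemma two_pow_card_le {R : ℕ} (hR : R ≠ 0) : 2 ^ R.primeFactors.card ≤ R := by
  calc 2 ^ R.primeFactors.card ≤ ∏ p ∈ R.primeFactors, p := by
        rw [← Finset.prod_const]
        exact Finset.prod_le_prod' fun p hp => (Nat.prime_of_mem_primeFactors hp).two_le
    _ ≤ R := Nat.le_of_dvd (Nat.pos_of_ne_zero hR) (Nat.prod_primeFactors_dvd R)

/-- Chebyshev -/
lemma pi_lower {Q : ℕ} (hQ : 4 ≤ Q) : (Q : ℝ) / 4 ≤ Real.log Q * Nat.primeCounting Q := by
  have h1 := Chebyshev.pi_ge Q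
  have hQ' : (4 : ℝ) ≤ Q := by exact_mod_cast hQ
  have hlog : 0 < Real.log Q := Real.log_pos (by linarith)
  rw [div_le_iff₀ hlog] at h1
  have h2 : Real.log (Q + 1) ≤ 0.84 + 0.2 * Q := by
    have e : ((Q : ℝ) + 1) = 5 * ((Q + 1) / 5) := by ring
    rw [e, Real.log_mul (by norm_num) (by positivity)]
    have h3 := Real.log_le_sub_one_of_pos (show (0 : ℝ) < (Q + 1) / 5 by positivity)
    have h4 : Real.log 5 ≤ 1.64 := by
      have h5 : Real.log 5 = Real.log (5 / 4) + 2 * Real.log 2 := by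
        rw [show (5 : ℝ) = 5 / 4 * (2 * 2) by norm_num, Real.log_mul (by norm_num) (by norm_num),
          Real.log_mul (by norm_num) (by norm_num)]
        norm_num
        ring
      have h6 := Real.log_le_sub_one_of_pos (show (0 : ℝ) < 5 / 4 by norm_num)
      have := Real.log_two_lt_d9
      rw [h5]
      linarith
    linarith
  have := Real.log_two_gt_d9
  nlinarith

/-- the primes used in the sieve -/
noncomputable def PQ (Q : ℕ) (R : ℤ) : Finset ℕ :=
  ((Finset.range (Q + 1)).filter Nat.Prime).filter fun p => 28561 ≤ p ∧ ¬ p ∣ R.natAbs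

lemma card_PQ (Q : ℕ) {R : ℤ} (hR : R ≠ 0) {T : ℝ} (hT : |(R : ℝ)| ≤ T) :
    (Nat.primeCounting Q : ℝ) ≤ (PQ Q R).card + (28561 + Real.log T / Real.log 2) := by
  classical
  have h0 : R.natAbs ≠ 0 := Int.natAbs_ne_zero.2 hR
  have h1 : Nat.primeCounting Q = ((Finset.range (Q + 1)).filter Nat.Prime).card := by
    rw [Nat.primeCounting, Nat.primeCounting', Nat.count_eq_card_filter_range]
  have h2 : ((Finset.range (Q + 1)).filter Nat.Prime) ⊆
      PQ Q R ∪ (Finset.range 28561 ∪ R.natAbs.primeFactors) := by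
    intro p hp
    by_cases h : 28561 ≤ p
    · by_cases h3 : p ∣ R.natAbs
      · rw [Finset.mem_union, Finset.mem_union]
        right
        right
        exact Nat.mem_primeFactors.2 ⟨(Finset.mem_filter.1 hp).2, h3, h0⟩
      · rw [Finset.mem_union]
        left
        exact Finset.mem_filter.2 ⟨hp, h, h3⟩
    · rw [Finset.mem_union, Finset.mem_union]
      right
      left
      exact Finset.mem_range.2 (by omega)
  have h3 := (Finset.card_le_card h2).trans ((Finset.card_union_le _ _).trans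
    (Nat.add_le_add_left (Finset.card_union_le _ _) _))
  rw [Finset.card_range] at h3
  have h4 : (R.natAbs.primeFactors.card : ℝ) ≤ Real.log T / Real.log 2 := by
    have hl2 : 0 < Real.log 2 := Real.log_pos (by norm_num)
    rw [le_div_iff₀ hl2, ← Real.log_pow]
    apply Real.log_le_log (by positivity)
    have h5 : ((2 ^ R.natAbs.primeFactors.card : ℕ) : ℝ) ≤ (R.natAbs : ℝ) := by
      exact_mod_cast two_pow_card_le h0
    push_cast at h5
    refine h5.trans (le_trans (le_of_eq ?_) hT)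
    rw [Nat.cast_natAbs, Int.cast_abs]
  rw [h1]
  have h5 : (((Finset.range (Q + 1)).filter Nat.Prime).card : ℝ) ≤
      (PQ Q R).card + (28561 + R.natAbs.primeFactors.card) := by exact_mod_cast h3
  linarith

/-- the sieve bound -/
lemma ell_sieve {K : ℝ} (hK : ∀ (N Q : ℕ) (S : Finset ℕ) (P : Finset ℕ)
    (Z : ∀ p : ℕ, Finset (ZMod p)),
    1 ≤ N → 1 ≤ Q → S ⊆ Finset.range N → (∀ p ∈ P, p.Prime ∧ p ≤ Q) →
    (∀ p ∈ P, ∀ n ∈ S, (n : ZMod p) ∉ Z p) → (∀ p ∈ P, (p : ℝ) / 4 ≤ ((Z p).card : ℝ)) →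
    (S.card : ℝ) * P.card ≤ K * ((N : ℝ) + (Q : ℝ) ^ 2)) (hcs : T_CS3) (J Q : ℕ) (hQ : 1 ≤ Q)
    (h : ℤ[X]) (R : ℤ)
    (hR : ∀ p : ℕ, p.Prime → 3 < p → ¬ ((p : ℤ) ∣ R) →
      (toZ p h).natDegree = 3 ∧ Squarefree (toZ p h)) :
    ({j : ℤ | |j| ≤ (J : ℤ) ∧ IsSquare (h.eval j)}.ncard : ℝ) * (PQ Q R).card ≤
      K * (((2 * J + 1 : ℕ) : ℝ) + (Q : ℝ) ^ 2) := by
  classical
  set A : Finset ℤ := (Finset.Icc (-(J : ℤ)) J).filter fun j => IsSquare (h.eval j) with hA
  have hA1 : {j : ℤ | |j| ≤ (J : ℤ) ∧ IsSquare (h.eval j)} = (A : Set ℤ) := by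
    ext j
    simp [hA, abs_le]
  set S : Finset ℕ := A.image fun j : ℤ => (j + J).toNat with hS
  have hS1 : S.card = A.card := by
    apply Finset.card_image_of_injOn
    intro a ha b hb hab
    have ha' := Finset.mem_Icc.1 (Finset.mem_filter.1 (Finset.mem_coe.1 ha)).1
    have hb' := Finset.mem_Icc.1 (Finset.mem_filter.1 (Finset.mem_coe.1 hb)).1
    have hab' : (a + J).toNat = (b + J).toNat := hab
    omega
  rw [hA1, Set.ncard_coe_finset, ← hS1]
  have hPm : ∀ p ∈ PQ Q R, p.Prime ∧ p ≤ Q ∧ 28561 ≤ p ∧ ¬ ((p : ℤ) ∣ R) := by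
    intro p hp
    obtain ⟨h1, h2, h3⟩ := Finset.mem_filter.1 hp
    obtain ⟨h4, h5⟩ := Finset.mem_filter.1 h1
    refine ⟨h5, ?_, h2, ?_⟩
    · have := Finset.mem_range.1 h4
      omega
    · intro h6
      exact h3 (Int.natCast_dvd.1 h6)
  set Z : ∀ p : ℕ, Finset (ZMod p) := fun p => if hp : p.Prime then
    (haveI : Fact p.Prime := ⟨hp⟩
     Finset.univ.filter fun y : ZMod p =>
      quadraticChar (ZMod p) ((toZ p h).eval (y - J)) = -1) else ∅ with hZ
  refine hK (2 * J + 1) Q S (PQ Q R) Z (by omega) hQ ?_ ?_ ?_ ?_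
  · intro n hn
    obtain ⟨j, hj, rfl⟩ := Finset.mem_image.1 hn
    have hj' := Finset.mem_Icc.1 (Finset.mem_filter.1 hj).1
    rw [Finset.mem_range]
    omega
  · exact fun p hp => ⟨(hPm p hp).1, (hPm p hp).2.1⟩
  · intro p hp n hn
    obtain ⟨hpp, -, -, -⟩ := hPm p hp
    have : Fact p.Prime := ⟨hpp⟩
    obtain ⟨j, hj, rfl⟩ := Finset.mem_image.1 hn
    obtain ⟨hj1, m, hm⟩ := Finset.mem_filter.1 hj
    have hj' := Finset.mem_Icc.1 hj1
    have e1 : (((j + J).toNat : ℕ) : ZMod p) = (j : ZMod p) + J := by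
      have e2 : (((j + J).toNat : ℕ) : ℤ) = j + J := Int.toNat_of_nonneg (by omega)
      have e3 : (((j + J).toNat : ℤ) : ZMod p) = ((j + J : ℤ) : ZMod p) := by rw [e2]
      rw [Int.cast_natCast, Int.cast_add, Int.cast_natCast] at e3
      exact e3
    simp only [hZ, dif_pos hpp, Finset.mem_filter, Finset.mem_univ, true_and]
    rw [e1, add_sub_cancel_right]
    have e4 : (toZ p h).eval (j : ZMod p) = (m : ZMod p) * m := by
      have e5 : (toZ p h).eval (j : ZMod p) = ((h.eval j : ℤ) : ZMod p) := by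
        show (h.map (Int.castRingHom (ZMod p))).eval (j : ZMod p) = _
        rw [eval_intCast_map]
        rfl
      rw [e5, hm]
      push_cast
      rfl
    rw [e4, map_mul]
    intro h7
    have h8 : (0 : ℤ) ≤ quadraticChar (ZMod p) (m : ZMod p) * quadraticChar (ZMod p) (m : ZMod p) :=
      mul_self_nonneg _
    omega
  · intro p hp
    obtain ⟨hpp, -, h3, h4⟩ := hPm p hp
    have : Fact p.Prime := ⟨hpp⟩
    obtain ⟨h5, h6⟩ := hR p hpp (by omega) h4
    have := card_nonres hcs h3 (toZ p h) h5 h6 (J : ZMod p)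
    simp only [hZ, dif_pos hpp]
    exact this

lemma ncard_le_N (J : ℕ) (h : ℤ[X]) :
    ({j : ℤ | |j| ≤ (J : ℤ) ∧ IsSquare (h.eval j)}.ncard : ℝ) ≤ 2 * (J : ℝ) + 1 := by
  have h1 : {j : ℤ | |j| ≤ (J : ℤ) ∧ IsSquare (h.eval j)} ⊆ (Finset.Icc (-(J : ℤ)) J : Set ℤ) := by
    intro j hj
    rw [Finset.coe_Icc, Set.mem_Icc]
    exact abs_le.1 hj.1
  have h2 := Set.ncard_le_ncard h1 (Finset.finite_toSet _)
  rw [Set.ncard_coe_finset, Int.card_Icc] at h2
  have h3 : ((J : ℤ) + 1 - -(J : ℤ)).toNat = 2 * J + 1 := by omega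
  rw [h3] at h2
  exact_mod_cast h2

theorem ell_thm (hcs : T_CS3) (hs : T_SIEVE) : T_ELL := by
  obtain ⟨K₀, hK₀⟩ := hs
  set K : ℝ := max K₀ 1 with hK
  have hK1 : 1 ≤ K := le_max_right _ _
  refine ⟨16 + 128 * K + 262144 * 42843 ^ 4 * 2.25, fun J T h R hJ hT h3 hR0 hRT hR => ?_⟩
  set n : ℝ := ({j : ℤ | |j| ≤ (J : ℤ) ∧ IsSquare (h.eval j)}.ncard : ℝ) with hn
  have hn0 : 0 ≤ n := Nat.cast_nonneg _
  have hnN : n ≤ 2 * (J : ℝ) + 1 := ncard_le_N J h
  have hJ' : (1 : ℝ) ≤ J := by exact_mod_cast hJ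
  set Q : ℕ := Nat.sqrt (2 * J + 1) with hQ
  have hQ1 : 1 ≤ Q := Nat.le_sqrt.2 (by omega)
  have hQ1' : (1 : ℝ) ≤ Q := by exact_mod_cast hQ1
  have hQQ : (Q : ℝ) ^ 2 ≤ 2 * J + 1 := by
    have := Nat.sqrt_le' (2 * J + 1)
    exact_mod_cast this
  have hQN : 2 * (J : ℝ) + 1 ≤ (Q + 1) ^ 2 := by
    have := (Nat.lt_succ_sqrt' (2 * J + 1)).le
    exact_mod_cast this
  have hQN4 : 2 * (J : ℝ) + 1 ≤ 4 * (Q : ℝ) ^ 2 := by nlinarith
  have hsJ : 1 ≤ (J : ℝ) ^ (1 / 2 : ℝ) := Real.one_le_rpow hJ' (by norm_num)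
  have hlJ : 1 ≤ Real.log (J + 2) := by
    rw [Real.le_log_iff_exp_le (by positivity)]
    have := Real.exp_one_lt_d9
    linarith
  have hprod : 1 ≤ (J : ℝ) ^ (1 / 2 : ℝ) * Real.log (J + 2) := by nlinarith
  have hl2 : 0.69 < Real.log 2 := by
    have := Real.log_two_gt_d9
    linarith
  have hlT : 0.69 < Real.log T :=
    hl2.trans_le (Real.log_le_log (by norm_num) hT)
  have hT6 : 0 ≤ Real.log T ^ 6 := by positivity
  have e1 := ell_sieve hK₀ hcs J Q hQ1 h R hR
  have e2 := card_PQ Q hR0 hRT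
  set E : ℝ := 28561 + Real.log T / Real.log 2 with hE
  have hE0 : 0 < E := by positivity
  have e1' : n * (PQ Q R).card ≤ 2 * K * (2 * J + 1) := by
    refine e1.trans ?_
    push_cast
    calc K₀ * (2 * (J : ℝ) + 1 + (Q : ℝ) ^ 2) ≤ K * (2 * (J : ℝ) + 1 + (Q : ℝ) ^ 2) :=
          mul_le_mul_of_nonneg_right (le_max_left _ _) (by positivity)
      _ ≤ K * (2 * (J : ℝ) + 1 + (2 * J + 1)) := by gcongr
      _ = 2 * K * (2 * J + 1) := by ring
  by_cases hQ4 : Q < 4
  · have h4 : (Q : ℝ) ≤ 3 := by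
      have : Q ≤ 3 := by omega
      exact_mod_cast this
    have h5 : n ≤ 16 := by nlinarith
    have h6 : 0 ≤ 128 * K + 262144 * 42843 ^ 4 * 2.25 := by positivity
    nlinarith
  push Not at hQ4
  have e3 := pi_lower hQ4
  have hlQ : 0 ≤ Real.log Q := Real.log_nonneg hQ1'
  by_cases hpi : 2 * E ≤ Nat.primeCounting Q
  · -- many primes
    have h4 : (Nat.primeCounting Q : ℝ) ≤ 2 * (PQ Q R).card := by linarith
    have h5 : n * Nat.primeCounting Q ≤ 4 * K * (2 * J + 1) := by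
      calc n * Nat.primeCounting Q ≤ n * (2 * (PQ Q R).card) := by gcongr
        _ = 2 * (n * (PQ Q R).card) := by ring
        _ ≤ 2 * (2 * K * (2 * J + 1)) := by gcongr
        _ = _ := by ring
    have h6 : n * (Q / 4) ≤ 4 * K * (2 * J + 1) * Real.log Q := by
      calc n * (Q / 4) ≤ n * (Real.log Q * Nat.primeCounting Q) := by gcongr
        _ = (n * Nat.primeCounting Q) * Real.log Q := by ring
        _ ≤ _ := by gcongr
    have h7 : n * Q ≤ 64 * K * Real.log Q * Q * Q := by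
      have : 4 * K * (2 * J + 1) * Real.log Q ≤ 4 * K * (4 * (Q : ℝ) ^ 2) * Real.log Q := by gcongr
      nlinarith
    have h8 : n ≤ 64 * K * Real.log Q * Q := le_of_mul_le_mul_right h7 (by linarith)
    have h9 : (Q : ℝ) ≤ 2 * (J : ℝ) ^ (1 / 2 : ℝ) := by
      rw [← Real.sqrt_eq_rpow]
      apply Real.le_sqrt_of_sq_le _ |>.trans (b := Real.sqrt (4 * J))
      · rw [Real.sqrt_mul (by norm_num), show (4 : ℝ) = 2 ^ 2 by norm_num,
          Real.sqrt_sq (by norm_num)]
      · linarith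
    have h10 : Real.log Q ≤ Real.log (J + 2) := by
      apply Real.log_le_log (by linarith)
      nlinarith
    calc n ≤ 64 * K * Real.log Q * Q := h8
      _ ≤ 64 * K * Real.log (J + 2) * (2 * (J : ℝ) ^ (1 / 2 : ℝ)) := by gcongr
      _ = 128 * K * ((J : ℝ) ^ (1 / 2 : ℝ) * Real.log (J + 2)) := by ring
      _ ≤ (16 + 128 * K + 262144 * 42843 ^ 4 * 2.25) *
          ((J : ℝ) ^ (1 / 2 : ℝ) * Real.log (J + 2) + Real.log T ^ 6) := by
        apply mul_le_mul _ _ (by positivity) (by positivity)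
        · linarith [show (0 : ℝ) ≤ 16 + 262144 * 42843 ^ 4 * 2.25 by norm_num]
        · linarith
  · -- few primes
    push Not at hpi
    have h4 : Real.log Q ≤ 2 * Real.sqrt Q := by
      have h5 := Real.log_le_sub_one_of_pos (Real.sqrt_pos.2 (by linarith : (0 : ℝ) < Q))
      rw [Real.log_sqrt (by positivity)] at h5
      linarith
    have hsQ : 0 < Real.sqrt Q := Real.sqrt_pos.2 (by linarith)
    have hss : Real.sqrt Q * Real.sqrt Q = Q := Real.mul_self_sqrt (by positivity)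
    have h5 : (Q : ℝ) ≤ 16 * E * Real.sqrt Q := by
      have : Real.log Q * Nat.primeCounting Q ≤ (2 * Real.sqrt Q) * (2 * E) := by
        apply mul_le_mul h4 hpi.le (by positivity) (by positivity)
      nlinarith
    have h6 : Real.sqrt Q ≤ 16 * E := by
      apply le_of_mul_le_mul_right _ hsQ
      rw [hss]
      exact h5
    have h7 : (Q : ℝ) ≤ 256 * E ^ 2 := by nlinarith
    have h8 : n ≤ 262144 * E ^ 4 := by
      have : (Q : ℝ) ^ 2 ≤ (256 * E ^ 2) ^ 2 := pow_le_pow_left₀ (by positivity) h7 2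
      nlinarith
    have h9 : E ≤ 42843 * Real.log T := by
      have h10 : Real.log T / Real.log 2 ≤ 1.5 * Real.log T := by
        rw [div_le_iff₀ (by linarith)]
        nlinarith
      have h11 : (1 : ℝ) ≤ 1.5 * Real.log T := by linarith
      nlinarith
    have h10 : E ^ 4 ≤ (42843 * Real.log T) ^ 4 := pow_le_pow_left₀ hE0.le h9 4
    have h11 : Real.log T ^ 4 ≤ 2.25 * Real.log T ^ 6 := by
      have h12 : 1 ≤ 2.25 * Real.log T ^ 2 := by nlinarith
      have h13 : 0 ≤ Real.log T ^ 4 := by positivity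
      nlinarith
    calc n ≤ 262144 * E ^ 4 := h8
      _ ≤ 262144 * (42843 * Real.log T) ^ 4 := by gcongr
      _ = 262144 * 42843 ^ 4 * Real.log T ^ 4 := by ring
      _ ≤ 262144 * 42843 ^ 4 * (2.25 * Real.log T ^ 6) := by gcongr
      _ = 262144 * 42843 ^ 4 * 2.25 * Real.log T ^ 6 := by ring
      _ ≤ (16 + 128 * K + 262144 * 42843 ^ 4 * 2.25) *
          ((J : ℝ) ^ (1 / 2 : ℝ) * Real.log (J + 2) + Real.log T ^ 6) := by
        apply mul_le_mul _ _ (by positivity) (by positivity)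
        · linarith
        · linarith

end Pool.Agent.H36.GF
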