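import Pool.Agent.H36.GF.FWC

/-! # MP_cd65c5_nt, modules FW4 FW5 FW6 -/

set_option autoImplicit false

namespace Pool.Agent.H36.GF

open Pool.Agent.H7.GF Polynomial

section

variable {p : ℕ} [Fact p.Prime]

lemma coeff_ne_of_dvd {b : ZMod p} (hb : b ≠ 0) {m : ℕ} {a : Fin m → ZMod p} {G : (ZMod p)[X]}
    (h : G ∣ pol b a) : G.coeff 0 ≠ 0 := by
  obtain ⟨g, hg⟩ := h
  intro h0
  have h2 : G.coeff 0 * g.coeff 0 = b := by rw [← mul_coeff_zero, ← hg, pol_coeff_zero]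
  rw [h0, zero_mul] at h2
  exact hb h2.symm

lemma cover1 {b : ZMod p} (hb : b ≠ 0) {m s : ℕ} (hm : s + 4 = m) (a : Fin m → ZMod p)
    (h : ∃ u v : ZMod p, (X ^ 2 + C u * X + C v) ^ 2 ∣ pol b a) : 1 ≤ wt (Fam b G1 m s) a := by
  obtain ⟨u, v, h⟩ := h
  have hv : v ≠ 0 := by
    intro hv
    apply coeff_ne_of_dvd hb h
    rw [hv]
    simp [coeff_zero_eq_eval_zero]
  exact fam_cover hb G1 hm (u, Units.mk0 v hv) (G1_monic _) (G1_natDegree _) a h

lemma cover2 {b : ZMod p} (hb : b ≠ 0) {m s : ℕ} (hm : s + 3 = m) (a : Fin m → ZMod p)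
    (h : ∃ r : ZMod p, (X - C r) ^ 3 ∣ pol b a) : 1 ≤ wt (Fam b G2 m s) a := by
  obtain ⟨r, h⟩ := h
  have hr : r ≠ 0 := by
    intro hr
    apply coeff_ne_of_dvd hb h
    rw [hr]
    simp [coeff_zero_eq_eval_zero]
  exact fam_cover hb G2 hm (Units.mk0 r hr) (G2_monic _) (G2_natDegree _) a h

lemma norm1 (hp : 7 < p) (b : ZMod p) {m s : ℕ} (hs : 1 ≤ s) (hm : s + 4 = m)
    {k : Fin m → ZMod p} (hk : k ≠ 0) :
    ‖FT (wt (Fam b G1 m s)) k‖ ≤ (p : ℝ) ^ s * (3 * p) := by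
  refine (norm_FT_fam b G1 m s k).trans (mul_le_mul_of_nonneg_left ?_ (by positivity))
  exact_mod_cast cnt_G1 hp hs hm hk

lemma norm2 (hp : 7 < p) (b : ZMod p) {m s : ℕ} (hs : 1 ≤ s) (hm : s + 3 = m)
    {k : Fin m → ZMod p} (hk : k ≠ 0) :
    ‖FT (wt (Fam b G2 m s)) k‖ ≤ (p : ℝ) ^ s * 3 := by
  refine (norm_FT_fam b G2 m s k).trans (mul_le_mul_of_nonneg_left ?_ (by positivity))
  exact_mod_cast cnt_G2 hp hs hm hk

lemma card_units_le : (Fintype.card (ZMod p)ˣ : ℝ) ≤ p := by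
  rw [ZMod.card_units]
  exact_mod_cast Nat.sub_le p 1

lemma norm1' (b : ZMod p) (m s : ℕ) (k : Fin m → ZMod p) :
    ‖FT (wt (Fam b G1 m s)) k‖ ≤ (p : ℝ) ^ (s + 2) := by
  refine (norm_FT_wt _ k).trans ?_
  rw [Fintype.card_prod, Fintype.card_prod, Fintype.card_fun, ZMod.card, Fintype.card_fin]
  push_cast
  have h1 := card_units_le (p := p)
  have h2 : (0 : ℝ) ≤ p := by positivity
  calc (p : ℝ) * (Fintype.card (ZMod p)ˣ : ℝ) * (p : ℝ) ^ s ≤ (p : ℝ) * p * (p : ℝ) ^ s := by gcongr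
    _ = (p : ℝ) ^ (s + 2) := by ring

lemma norm2' (b : ZMod p) (m s : ℕ) (k : Fin m → ZMod p) :
    ‖FT (wt (Fam b G2 m s)) k‖ ≤ (p : ℝ) ^ (s + 1) := by
  refine (norm_FT_wt _ k).trans ?_
  rw [Fintype.card_prod, Fintype.card_fun, ZMod.card, Fintype.card_fin]
  push_cast
  have h1 := card_units_le (p := p)
  calc (Fintype.card (ZMod p)ˣ : ℝ) * (p : ℝ) ^ s ≤ (p : ℝ) * (p : ℝ) ^ s := by gcongr
    _ = (p : ℝ) ^ (s + 1) := by ring

/-- squares of cubic polynomials -/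
noncomputable def G3 (x : (ZMod p)ˣ × (Fin 2 → ZMod p)) : (ZMod p)[X] :=
  (pol (x.1 : ZMod p) x.2) ^ 2

/-- squares of cubic polynomials with given constant term -/
noncomputable def Phi5 (b : ZMod p) (x : {c : ZMod p // c ^ 2 = b} × (Fin 2 → ZMod p)) :
    Fin 5 → ZMod p := fun i => ((pol x.1.1 x.2) ^ 2).coeff ((i : ℕ) + 1)

lemma natDegree_three {m : ℕ} (hm : m ≤ 6) {b : ZMod p} {a : Fin m → ZMod p} {q : (ZMod p)[X]}
    (hq : q.Monic) (h3 : 3 ≤ q.natDegree) (h : q ^ 2 ∣ pol b a) :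
    q.natDegree = 3 ∧ 5 ≤ m := by
  have h1 := natDegree_le_of_dvd h (pol_monic b a).ne_zero
  rw [hq.natDegree_pow, pol_natDegree] at h1
  omega

lemma card_sq_le (b : ZMod p) : Fintype.card {c : ZMod p // c ^ 2 = b} ≤ 2 := by
  classical
  rw [Fintype.card_subtype]
  have h1 : (Finset.univ.filter fun c : ZMod p => c ^ 2 = b) ⊆ (nthRoots 2 b).toFinset := by
    intro c hc
    rw [Multiset.mem_toFinset, mem_nthRoots (by norm_num)]
    exact (Finset.mem_filter.1 hc).2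
  exact (Finset.card_le_card h1).trans ((Multiset.toFinset_card_le _).trans (card_nthRoots _ _))

end

theorem fw5 (hmaj : T_MAJ) : T_FW5 := by
  intro p _ hp b hb
  have hp0 : (1 : ℝ) ≤ p := by
    have : 1 ≤ p := by omega
    exact_mod_cast this
  refine ⟨fun a => (wt (Fam b G1 5 1) a + wt (Fam b G2 5 2) a) + wt (Phi5 b) a,
    fun a => ?_, fun a ha => ?_, fun k => ?_, fun k hk => ?_⟩
  · have := wt_nonneg (Fam b G1 5 1) a
    have := wt_nonneg (Fam b G2 5 2) a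
    have := wt_nonneg (Phi5 b) a
    positivity
  · have w1 := wt_nonneg (Fam b G1 5 1) a
    have w2 := wt_nonneg (Fam b G2 5 2) a
    have w3 := wt_nonneg (Phi5 b) a
    rcases hmaj p (pol b a) (pol_monic b a) (by rw [pol_natDegree]; omega) ha with h | h | h
    · have := cover2 hb (s := 2) rfl a h
      linarith
    · have := cover1 hb (s := 1) rfl a h
      linarith
    · obtain ⟨q, hq, h3, hqd⟩ := h
      obtain ⟨hq3, -⟩ := natDegree_three (by norm_num) hq h3 hqd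
      have e1 : pol b a = q ^ 2 := by
        refine (eq_of_monic_of_dvd_of_natDegree_le (hq.pow 2) (pol_monic b a) hqd ?_)
        rw [pol_natDegree, hq.natDegree_pow, hq3]
      have e2 := eq_pol (m := 2) q hq hq3
      have e3 : (q.coeff 0) ^ 2 = b := by
        rw [← pol_coeff_zero b a, e1, pow_two, pow_two, mul_coeff_zero]
      have e4 : Phi5 b (⟨q.coeff 0, e3⟩, fun i : Fin 2 => q.coeff ((i : ℕ) + 1)) = a := by
        funext i
        show ((pol (q.coeff 0) (fun i : Fin 2 => q.coeff ((i : ℕ) + 1))) ^ 2).coeff _ = _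
        rw [← e2, ← e1, pol_coeff_succ]
      have := wt_ge (Phi5 b) (⟨q.coeff 0, e3⟩, fun i : Fin 2 => q.coeff ((i : ℕ) + 1))
      rw [e4] at this
      linarith
  · have n1 := norm1' b 5 1 k
    have n2 := norm2' b 5 2 k
    have n3 := norm_FT_wt (Phi5 b) k
    rw [Fintype.card_prod, Fintype.card_fun, ZMod.card, Fintype.card_fin] at n3
    have n4 : ((Fintype.card {c : ZMod p // c ^ 2 = b} * p ^ 2 : ℕ) : ℝ) ≤ 2 * (p : ℝ) ^ 2 := by
      have := card_sq_le b
      exact_mod_cast Nat.mul_le_mul_right (p ^ 2) this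
    rw [FT_add, FT_add]
    have e : ((5 : ℕ) : ℝ) - 2 = ((3 : ℕ) : ℝ) := by norm_num
    rw [e, Real.rpow_natCast]
    refine (norm_add_le _ _).trans ?_
    have := norm_add_le (FT (wt (Fam b G1 5 1)) k) (FT (wt (Fam b G2 5 2)) k)
    have h5 : (p : ℝ) ^ 2 ≤ (p : ℝ) ^ 3 := pow_le_pow_right₀ hp0 (by norm_num)
    have h6 : (0 : ℝ) ≤ (p : ℝ) ^ 3 := by positivity
    norm_num at n1 n2
    linarith
  · have n1 := norm1 hp b (m := 5) (s := 1) le_rfl rfl hk
    have n2 := norm2 hp b (m := 5) (s := 2) (by norm_num) rfl hk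
    have n3 := norm_FT_wt (Phi5 b) k
    rw [Fintype.card_prod, Fintype.card_fun, ZMod.card, Fintype.card_fin] at n3
    have n4 : ((Fintype.card {c : ZMod p // c ^ 2 = b} * p ^ 2 : ℕ) : ℝ) ≤ 2 * (p : ℝ) ^ 2 := by
      have := card_sq_le b
      exact_mod_cast Nat.mul_le_mul_right (p ^ 2) this
    rw [FT_add, FT_add]
    have h5 : (p : ℝ) ^ 2 ≤ (p : ℝ) ^ (((5 : ℕ) : ℝ) - 5 / 2) := by
      rw [← Real.rpow_natCast]
      exact Real.rpow_le_rpow_of_exponent_le hp0 (by norm_num)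
    refine (norm_add_le _ _).trans ?_
    have := norm_add_le (FT (wt (Fam b G1 5 1)) k) (FT (wt (Fam b G2 5 2)) k)
    have h6 : (0 : ℝ) ≤ (p : ℝ) ^ 2 := by positivity
    have e1 : (p : ℝ) ^ 1 * (3 * p) = 3 * (p : ℝ) ^ 2 := by ring
    rw [e1] at n1
    linarith

theorem fw6 (hmaj : T_MAJ) : T_FW6 := by
  intro p _ hp b hb
  have hp0 : (1 : ℝ) ≤ p := by
    have : 1 ≤ p := by omega
    exact_mod_cast this
  refine ⟨fun a => (wt (Fam b G1 6 2) a + wt (Fam b G2 6 3) a) + wt (Fam b G3 6 0) a,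
    fun a => ?_, fun a ha => ?_, fun k => ?_, fun k hk => ?_⟩
  · have := wt_nonneg (Fam b G1 6 2) a
    have := wt_nonneg (Fam b G2 6 3) a
    have := wt_nonneg (Fam b G3 6 0) a
    positivity
  · have w1 := wt_nonneg (Fam b G1 6 2) a
    have w2 := wt_nonneg (Fam b G2 6 3) a
    have w3 := wt_nonneg (Fam b G3 6 0) a
    rcases hmaj p (pol b a) (pol_monic b a) (by rw [pol_natDegree]; omega) ha with h | h | h
    · have := cover2 hb (s := 3) rfl a h
      linarith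
    · have := cover1 hb (s := 2) rfl a h
      linarith
    · obtain ⟨q, hq, h3, hqd⟩ := h
      obtain ⟨hq3, -⟩ := natDegree_three (by norm_num) hq h3 hqd
      have e2 := eq_pol (m := 2) q hq hq3
      have e3 : q.coeff 0 ≠ 0 := by
        have := coeff_ne_of_dvd hb hqd
        rw [pow_two, mul_coeff_zero] at this
        exact left_ne_zero_of_mul this
      have e4 : G3 (Units.mk0 (q.coeff 0) e3, fun i : Fin 2 => q.coeff ((i : ℕ) + 1)) = q ^ 2 := by
        show (pol (q.coeff 0) (fun i : Fin 2 => q.coeff ((i : ℕ) + 1))) ^ 2 = _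
        rw [← e2]
      have := fam_cover hb G3 (m := 6) (s := 0) (d := 6) rfl
        (Units.mk0 (q.coeff 0) e3, fun i : Fin 2 => q.coeff ((i : ℕ) + 1))
        (by rw [e4]; exact hq.pow 2) (by rw [e4, hq.natDegree_pow, hq3]) a (by rw [e4]; exact hqd)
      linarith
  · have n1 := norm1' b 6 2 k
    have n2 := norm2' b 6 3 k
    have n3 := norm_FT_wt (Fam b G3 6 0) k
    have n4 : (Fintype.card (((ZMod p)ˣ × (Fin 2 → ZMod p)) × (Fin 0 → ZMod p)) : ℝ) ≤
        (p : ℝ) ^ 3 := by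
      rw [Fintype.card_prod, Fintype.card_prod, Fintype.card_fun, Fintype.card_fun, ZMod.card,
        Fintype.card_fin, Fintype.card_fin]
      push_cast
      have h1 := card_units_le (p := p)
      calc (Fintype.card (ZMod p)ˣ : ℝ) * (p : ℝ) ^ 2 * (p : ℝ) ^ 0 ≤
          (p : ℝ) * (p : ℝ) ^ 2 * (p : ℝ) ^ 0 := by gcongr
        _ = (p : ℝ) ^ 3 := by ring
    rw [FT_add, FT_add]
    have e : ((6 : ℕ) : ℝ) - 2 = ((4 : ℕ) : ℝ) := by norm_num
    rw [e, Real.rpow_natCast]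
    refine (norm_add_le _ _).trans ?_
    have := norm_add_le (FT (wt (Fam b G1 6 2)) k) (FT (wt (Fam b G2 6 3)) k)
    have h5 : (p : ℝ) ^ 3 ≤ (p : ℝ) ^ 4 := pow_le_pow_right₀ hp0 (by norm_num)
    have h6 : (0 : ℝ) ≤ (p : ℝ) ^ 4 := by positivity
    norm_num at n1 n2
    linarith
  · have n1 := norm1 hp b (m := 6) (s := 2) (by norm_num) rfl hk
    have n2 := norm2 hp b (m := 6) (s := 3) (by norm_num) rfl hk
    have n3 := norm_FT_wt (Fam b G3 6 0) k
    have n4 : (Fintype.card (((ZMod p)ˣ × (Fin 2 → ZMod p)) × (Fin 0 → ZMod p)) : ℝ) ≤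
        (p : ℝ) ^ 3 := by
      rw [Fintype.card_prod, Fintype.card_prod, Fintype.card_fun, Fintype.card_fun, ZMod.card,
        Fintype.card_fin, Fintype.card_fin]
      push_cast
      have h1 := card_units_le (p := p)
      calc (Fintype.card (ZMod p)ˣ : ℝ) * (p : ℝ) ^ 2 * (p : ℝ) ^ 0 ≤
          (p : ℝ) * (p : ℝ) ^ 2 * (p : ℝ) ^ 0 := by gcongr
        _ = (p : ℝ) ^ 3 := by ring
    rw [FT_add, FT_add]
    have h5 : (p : ℝ) ^ 3 ≤ (p : ℝ) ^ (((6 : ℕ) : ℝ) - 5 / 2) := by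
      rw [← Real.rpow_natCast]
      exact Real.rpow_le_rpow_of_exponent_le hp0 (by norm_num)
    refine (norm_add_le _ _).trans ?_
    have := norm_add_le (FT (wt (Fam b G1 6 2)) k) (FT (wt (Fam b G2 6 3)) k)
    have h6 : (0 : ℝ) ≤ (p : ℝ) ^ 3 := by positivity
    have e1 : (p : ℝ) ^ 2 * (3 * p) = 3 * (p : ℝ) ^ 3 := by ring
    rw [e1] at n1
    linarith

section

variable {p : ℕ} [Fact p.Prime]

/-- the product in degree five -/
lemma G1_mul_lin (b u : ZMod p) (v : (ZMod p)ˣ) (h : Fin 0 → ZMod p) :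
    G1 (u, v) * pol (b / (v : ZMod p) ^ 2) h = pol b ![(v : ZMod p) ^ 2 + 2 * u * v * (b / (v : ZMod p) ^ 2),
      2 * u * v + (u ^ 2 + 2 * v) * (b / (v : ZMod p) ^ 2),
      u ^ 2 + 2 * v + 2 * u * (b / (v : ZMod p) ^ 2), 2 * u + b / (v : ZMod p) ^ 2] := by
  have hv : (v : ZMod p) ≠ 0 := v.ne_zero
  set w : ZMod p := b / (v : ZMod p) ^ 2 with hw
  have hb : b = (v : ZMod p) ^ 2 * w := by
    rw [hw]
    field_simp
  rw [hb]
  simp only [G1, pol, Fin.sum_univ_four, Fin.sum_univ_zero, Matrix.cons_val_zero,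
    Matrix.cons_val_one, Matrix.cons_val, C_add, C_mul, C_pow, C_ofNat]
  norm_num
  ring

lemma sum4 (hg : T_GAUSS) (hp : 7 < p) {b : ZMod p} (hb : b ≠ 0) {k : Fin 4 → ZMod p}
    (hk : k ≠ 0) : ‖FT (wt (Fam b G1 4 0)) k‖ ≤ 3 * (p : ℝ) ^ (3 / 2 : ℝ) := by
  classical
  have h2 := two_ne hp
  set α : (ZMod p)ˣ → ZMod p := fun v => k 2 + k 1 * (b / (v : ZMod p) ^ 2) with hα
  set β : (ZMod p)ˣ → ZMod p := fun v => 2 * k 3 + 2 * k 2 * (b / (v : ZMod p) ^ 2) +
    2 * k 1 * v + 2 * k 0 * v * (b / (v : ZMod p) ^ 2) with hβ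
  set γ : (ZMod p)ˣ → ZMod p := fun v => k 3 * (b / (v : ZMod p) ^ 2) + 2 * k 2 * v +
    2 * k 1 * v * (b / (v : ZMod p) ^ 2) + k 0 * (v : ZMod p) ^ 2 with hγ
  have h1 : FT (wt (Fam b G1 4 0)) k = ∑ v : (ZMod p)ˣ, ZMod.stdAddChar (γ v) *
      ∑ u : ZMod p, ZMod.stdAddChar (α v * u ^ 2 + β v * u) := by
    rw [FT_wt, Fintype.sum_prod_type, Fintype.sum_prod_type, Finset.sum_comm]
    refine Finset.sum_congr rfl fun v _ => ?_
    rw [Finset.mul_sum]
    refine Finset.sum_congr rfl fun u _ => ?_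
    rw [Fintype.sum_unique, ← AddChar.map_add_eq_mul]
    congr 1
    have e0 : (G1 (u, v)).coeff 0 = (v : ZMod p) ^ 2 := by
      simp [G1, coeff_zero_eq_eval_zero]
    have e1 : ∀ (h : Fin 0 → ZMod p) (i : Fin 4), Fam b G1 4 0 ((u, v), h) i = ![(v : ZMod p) ^ 2 + 2 * u * v * (b / (v : ZMod p) ^ 2),
      2 * u * v + (u ^ 2 + 2 * v) * (b / (v : ZMod p) ^ 2),
      u ^ 2 + 2 * v + 2 * u * (b / (v : ZMod p) ^ 2), 2 * u + b / (v : ZMod p) ^ 2] i := by
      intro h i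
      show (G1 (u, v) * pol (b / (G1 (u, v)).coeff 0) h).coeff _ = _
      rw [e0, G1_mul_lin, pol_coeff_succ]
    simp only [e1, Fin.sum_univ_four, Matrix.cons_val_zero, Matrix.cons_val_one,
      Matrix.cons_val, hα, hβ, hγ]
    ring
  have h3 : ∀ v : (ZMod p)ˣ, ‖ZMod.stdAddChar (γ v) *
      ∑ u : ZMod p, ZMod.stdAddChar (α v * u ^ 2 + β v * u)‖ ≤
      Real.sqrt p + if α v = 0 ∧ β v = 0 then (p : ℝ) else 0 := by
    intro v
    rw [norm_mul, AddChar.norm_apply, one_mul]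
    obtain ⟨g1, g2⟩ := hg p (by omega) (α v) (β v)
    by_cases ha : α v = 0
    · by_cases hb : β v = 0
      · rw [if_pos ⟨ha, hb⟩]
        refine (norm_sum_le _ _).trans ?_
        simp [AddChar.norm_apply]
      · rw [g2 ha hb, norm_zero]
        positivity
    · rw [if_neg (fun h => ha h.1), add_zero]
      exact g1 ha
  have h4 : (Finset.univ.filter fun v : (ZMod p)ˣ => α v = 0 ∧ β v = 0).card ≤ 2 := by
    obtain ⟨Q, hQ0, hQd, hQ⟩ : ∃ Q : (ZMod p)[X], Q ≠ 0 ∧ Q.natDegree ≤ 2 ∧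
        ∀ v : (ZMod p)ˣ, α v = 0 → β v = 0 → Q.eval (v : ZMod p) = 0 := by
      by_cases h12 : k 1 = 0 ∧ k 2 = 0
      · refine ⟨C (k 3) * X + C (k 0 * b), ?_, by compute_degree!, ?_⟩
        · intro h
          have c0 : (C (k 3) * X + C (k 0 * b) : (ZMod p)[X]).coeff 0 = 0 := by rw [h, coeff_zero]
          have c1 : (C (k 3) * X + C (k 0 * b) : (ZMod p)[X]).coeff 1 = 0 := by rw [h, coeff_zero]
          simp only [coeff_add, coeff_C_mul, coeff_C, coeff_X] at c0 c1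
          norm_num at c0 c1
          apply hk
          funext i
          have c0' := c0.resolve_right hb
          fin_cases i
          · exact c0'
          · exact h12.1
          · exact h12.2
          · exact c1
        · intro v _ hb0
          have hv : (v : ZMod p) ≠ 0 := v.ne_zero
          simp only [hβ, h12.1, h12.2] at hb0
          simp only [eval_add, eval_mul, eval_C, eval_X]
          have e : (k 3 * v + k 0 * b) * 2 = (2 * k 3 + 2 * 0 * (b / (v : ZMod p) ^ 2) +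
              2 * 0 * v + 2 * k 0 * v * (b / (v : ZMod p) ^ 2)) * v := by
            field_simp
            ring
          rw [hb0, zero_mul] at e
          exact (mul_eq_zero.1 e).resolve_right h2
      · refine ⟨C (k 2) * X ^ 2 + C (k 1 * b), ?_, by compute_degree, ?_⟩
        · intro h
          have c0 : (C (k 2) * X ^ 2 + C (k 1 * b) : (ZMod p)[X]).coeff 0 = 0 := by
            rw [h, coeff_zero]
          have c2 : (C (k 2) * X ^ 2 + C (k 1 * b) : (ZMod p)[X]).coeff 2 = 0 := by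
            rw [h, coeff_zero]
          simp only [coeff_add, coeff_C_mul, coeff_C, coeff_X_pow] at c0 c2
          norm_num at c0 c2
          exact h12 ⟨c0.resolve_right hb, c2⟩
        · intro v ha0 _
          have hv : (v : ZMod p) ≠ 0 := v.ne_zero
          simp only [hα] at ha0
          simp only [eval_add, eval_mul, eval_C, eval_X, eval_pow]
          have e : k 2 * (v : ZMod p) ^ 2 + k 1 * b =
              (k 2 + k 1 * (b / (v : ZMod p) ^ 2)) * (v : ZMod p) ^ 2 := by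
            field_simp
          rw [e, ha0, zero_mul]
    refine le_trans ?_ (card_roots_le Q 2 hQ0 hQd)
    rw [← Set.ncard_coe_finset]
    apply Set.ncard_le_ncard_of_injOn (fun v : (ZMod p)ˣ => (v : ZMod p))
    · intro v hv
      have := (Finset.mem_filter.1 (Finset.mem_coe.1 hv)).2
      exact hQ v this.1 this.2
    · exact fun a _ b _ h => Units.ext h
  rw [h1]
  refine (norm_sum_le _ _).trans ((Finset.sum_le_sum fun v _ => h3 v).trans ?_)
  rw [Finset.sum_add_distrib, Finset.sum_const, Finset.card_univ, nsmul_eq_mul,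
    ← Finset.sum_filter, Finset.sum_const, nsmul_eq_mul]
  have hp0 : (1 : ℝ) ≤ p := by
    have : 1 ≤ p := by omega
    exact_mod_cast this
  have h5 : ((Finset.univ.filter fun v : (ZMod p)ˣ => α v = 0 ∧ β v = 0).card : ℝ) ≤ 2 := by
    exact_mod_cast h4
  have h6 : (p : ℝ) * Real.sqrt p = (p : ℝ) ^ (3 / 2 : ℝ) := by
    rw [Real.sqrt_eq_rpow, ← Real.rpow_one_add' (by positivity) (by norm_num)]
    norm_num
  have h7 : (p : ℝ) ≤ (p : ℝ) ^ (3 / 2 : ℝ) := by
    calc (p : ℝ) = (p : ℝ) ^ (1 : ℝ) := (Real.rpow_one _).symm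
      _ ≤ _ := Real.rpow_le_rpow_of_exponent_le hp0 (by norm_num)
  have h8 : (Fintype.card (ZMod p)ˣ : ℝ) * Real.sqrt p ≤ p * Real.sqrt p :=
    mul_le_mul_of_nonneg_right card_units_le (Real.sqrt_nonneg _)
  have h9 : ((Finset.univ.filter fun v : (ZMod p)ˣ => α v = 0 ∧ β v = 0).card : ℝ) * p ≤ 2 * p :=
    mul_le_mul_of_nonneg_right h5 (by positivity)
  linarith

end

theorem fw4 (hmaj : T_MAJ) (hg : T_GAUSS) : T_FW4 := by
  intro p _ hp b hb
  have hp0 : (1 : ℝ) ≤ p := by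
    have : 1 ≤ p := by omega
    exact_mod_cast this
  refine ⟨fun a => wt (Fam b G1 4 0) a + wt (Fam b G2 4 1) a,
    fun a => ?_, fun a ha => ?_, fun k => ?_, fun k hk => ?_⟩
  · have := wt_nonneg (Fam b G1 4 0) a
    have := wt_nonneg (Fam b G2 4 1) a
    positivity
  · have w1 := wt_nonneg (Fam b G1 4 0) a
    have w2 := wt_nonneg (Fam b G2 4 1) a
    rcases hmaj p (pol b a) (pol_monic b a) (by rw [pol_natDegree]; omega) ha with h | h | h
    · have := cover2 hb (s := 1) rfl a h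
      linarith
    · have := cover1 hb (s := 0) rfl a h
      linarith
    · obtain ⟨q, hq, h3, hqd⟩ := h
      obtain ⟨hq3, h5⟩ := natDegree_three (by norm_num) hq h3 hqd
      omega
  · have n1 := norm1' b 4 0 k
    have n2 := norm2' b 4 1 k
    rw [FT_add]
    have e : ((4 : ℕ) : ℝ) - 2 = ((2 : ℕ) : ℝ) := by norm_num
    rw [e, Real.rpow_natCast]
    refine (norm_add_le _ _).trans ?_
    have h6 : (0 : ℝ) ≤ (p : ℝ) ^ 2 := by positivity
    norm_num at n1 n2
    linarith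
  · have n1 := sum4 hg hp hb hk
    have n2 := norm2 hp b (m := 4) (s := 1) (by norm_num) rfl hk
    rw [FT_add]
    have h7 : (p : ℝ) ≤ (p : ℝ) ^ (3 / 2 : ℝ) := by
      calc (p : ℝ) = (p : ℝ) ^ (1 : ℝ) := (Real.rpow_one _).symm
        _ ≤ _ := Real.rpow_le_rpow_of_exponent_le hp0 (by norm_num)
    have e : ((4 : ℕ) : ℝ) - 5 / 2 = 3 / 2 := by norm_num
    rw [e]
    refine (norm_add_le _ _).trans ?_
    have h6 : (0 : ℝ) ≤ (p : ℝ) ^ (3 / 2 : ℝ) := by positivity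
    rw [pow_one] at n2
    linarith

end Pool.Agent.H36.GF
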