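import Pool.Agent.H36.GF.Moment
import Pool.Agent.H7.GF.Targets2
import Pool.Agent.H7.GF.Basic

/-! # MP_cd65c5_nt: Fourier transforms of weights given by parametrised families -/

set_option autoImplicit false

namespace Pool.Agent.H36.GF

open Pool.Agent.H7.GF Polynomial

section

variable {p : ℕ} [Fact p.Prime]

/-- the weight of a parametrisation -/
noncomputable def wt {P : Type} {m : ℕ} (Φ : P → Fin m → ZMod p) (a : Fin m → ZMod p) : ℝ :=
  ({x : P | Φ x = a}.ncard : ℝ)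

omit [Fact p.Prime] in
lemma wt_nonneg {P : Type} {m : ℕ} (Φ : P → Fin m → ZMod p) (a : Fin m → ZMod p) :
    0 ≤ wt Φ a := Nat.cast_nonneg _

omit [Fact p.Prime] in
lemma wt_ge {P : Type} [Finite P] {m : ℕ} (Φ : P → Fin m → ZMod p) (x : P) : 1 ≤ wt Φ (Φ x) := by
  unfold wt
  have h : 1 ≤ {y : P | Φ y = Φ x}.ncard :=
    (Set.ncard_pos (Set.toFinite _)).2 ⟨x, rfl⟩
  exact_mod_cast h

lemma FT_wt {P : Type} [Fintype P] {m : ℕ} (Φ : P → Fin m → ZMod p) (k : Fin m → ZMod p) :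
    FT (wt Φ) k = ∑ x : P, ZMod.stdAddChar (∑ i, k i * Φ x i) := by
  classical
  unfold FT wt
  rw [← Finset.sum_fiberwise Finset.univ Φ]
  refine Finset.sum_congr rfl fun a _ => ?_
  have h1 : {x : P | Φ x = a}.ncard = (Finset.univ.filter fun x => Φ x = a).card := by
    rw [← Set.ncard_coe_finset]
    congr 1
    ext x
    simp
  rw [h1]
  rw [Finset.sum_congr rfl (g := fun _ => ZMod.stdAddChar (∑ i, k i * a i))]
  · rw [Finset.sum_const, nsmul_eq_mul]
    push_cast
    rfl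
  · intro x hx
    rw [(Finset.mem_filter.1 hx).2]

lemma FT_add {m : ℕ} (W V : (Fin m → ZMod p) → ℝ) (k : Fin m → ZMod p) :
    FT (fun a => W a + V a) k = FT W k + FT V k := by
  unfold FT
  rw [← Finset.sum_add_distrib]
  refine Finset.sum_congr rfl fun a _ => ?_
  push_cast
  ring

lemma norm_FT_wt {P : Type} [Fintype P] {m : ℕ} (Φ : P → Fin m → ZMod p) (k : Fin m → ZMod p) :
    ‖FT (wt Φ) k‖ ≤ Fintype.card P := by
  rw [FT_wt]
  refine (norm_sum_le _ _).trans ?_
  simp [AddChar.norm_apply]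

/-- linear families -/
lemma lin_fam {P : Type} [Fintype P] {s : ℕ} (c : P → ZMod p) (L : P → Fin s → ZMod p) :
    ‖∑ x : P × (Fin s → ZMod p), ZMod.stdAddChar (c x.1 + ∑ j, x.2 j * L x.1 j)‖ ≤
      (p : ℝ) ^ s * ({x : P | ∀ j, L x j = 0}.ncard : ℝ) := by
  classical
  rw [Fintype.sum_prod_type]
  have h1 : ∀ x : P, ∑ h : Fin s → ZMod p, ZMod.stdAddChar (c x + ∑ j, h j * L x j) =
      ZMod.stdAddChar (c x) * if L x = 0 then (p : ℂ) ^ s else 0 := by
    intro x
    have h2 := orth (L x)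
    rw [Fintype.card_fin] at h2
    rw [← h2, Finset.mul_sum]
    exact Finset.sum_congr rfl fun h _ => AddChar.map_add_eq_mul _ _ _
  simp only [h1]
  refine (norm_sum_le _ _).trans ?_
  have h3 : ∀ x : P, ‖ZMod.stdAddChar (c x) * (if L x = 0 then (p : ℂ) ^ s else 0)‖ =
      if L x = 0 then (p : ℝ) ^ s else 0 := by
    intro x
    rw [norm_mul, AddChar.norm_apply, one_mul]
    split_ifs <;> simp
  simp only [h3]
  rw [← Finset.sum_filter, Finset.sum_const, nsmul_eq_mul, mul_comm]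
  have h4 : {x : P | ∀ j, L x j = 0}.ncard = (Finset.univ.filter fun x => L x = 0).card := by
    rw [← Set.ncard_coe_finset]
    congr 1
    ext x
    simp [funext_iff]
  rw [h4]

/-- the linear functional of the frequencies -/
noncomputable def ell {m : ℕ} (k : Fin m → ZMod p) (f : (ZMod p)[X]) : ZMod p :=
  ∑ i : Fin m, k i * f.coeff ((i : ℕ) + 1)

lemma ell_add {m : ℕ} (k : Fin m → ZMod p) (f g : (ZMod p)[X]) :
    ell k (f + g) = ell k f + ell k g := by
  simp [ell, mul_add, Finset.sum_add_distrib]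

lemma ell_C_mul {m : ℕ} (k : Fin m → ZMod p) (c : ZMod p) (f : (ZMod p)[X]) :
    ell k (C c * f) = c * ell k f := by
  simp only [ell, coeff_C_mul, Finset.mul_sum]
  exact Finset.sum_congr rfl fun i _ => by ring

lemma ell_sum {m : ℕ} (k : Fin m → ZMod p) {ι : Type} (s : Finset ι) (f : ι → (ZMod p)[X]) :
    ell k (∑ i ∈ s, f i) = ∑ i ∈ s, ell k (f i) := by
  classical
  induction s using Finset.induction_on with
  | empty => simp [ell]
  | insert a s ha ih => rw [Finset.sum_insert ha, Finset.sum_insert ha, ell_add, ih]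

lemma ell_X_pow {m : ℕ} (k : Fin m → ZMod p) (t : ℕ) (ht : t < m) :
    ell k (X ^ (t + 1)) = k ⟨t, ht⟩ := by
  unfold ell
  rw [Finset.sum_eq_single ⟨t, ht⟩]
  · simp
  · intro b _ hb
    have : ¬ ((b : ℕ) + 1 = t + 1) := fun h => hb (Fin.ext (Nat.succ_injective h))
    rw [coeff_X_pow, if_neg this, mul_zero]
  · simp

/-- products with a cofactor whose constant term is determined -/
noncomputable def Fam {P : Type} (b : ZMod p) (G : P → (ZMod p)[X]) (m s : ℕ)
    (x : P × (Fin s → ZMod p)) : Fin m → ZMod p :=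
  fun i => (G x.1 * pol (b / (G x.1).coeff 0) x.2).coeff ((i : ℕ) + 1)

lemma norm_FT_fam {P : Type} [Fintype P] (b : ZMod p) (G : P → (ZMod p)[X]) (m s : ℕ)
    (k : Fin m → ZMod p) : ‖FT (wt (Fam b G m s)) k‖ ≤
      (p : ℝ) ^ s * ({x : P | ∀ j : Fin s, ell k (G x * X ^ ((j : ℕ) + 1)) = 0}.ncard : ℝ) := by
  rw [FT_wt]
  refine le_trans (le_of_eq ?_) (lin_fam
    (fun x => ell k (G x * (X ^ (s + 1) + C (b / (G x).coeff 0))))
    (fun x (j : Fin s) => ell k (G x * X ^ ((j : ℕ) + 1))))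
  congr 1
  refine Finset.sum_congr rfl fun x _ => ?_
  congr 1
  have h1 : G x.1 * pol (b / (G x.1).coeff 0) x.2 =
      G x.1 * (X ^ (s + 1) + C (b / (G x.1).coeff 0)) +
      ∑ j : Fin s, C (x.2 j) * (G x.1 * X ^ ((j : ℕ) + 1)) := by
    unfold pol
    rw [mul_add, mul_add, mul_add, Finset.mul_sum]
    have : ∀ j : Fin s, G x.1 * (C (x.2 j) * X ^ ((j : ℕ) + 1)) =
        C (x.2 j) * (G x.1 * X ^ ((j : ℕ) + 1)) := fun j => by ring
    simp only [this]
    ring
  show ell k (G x.1 * pol (b / (G x.1).coeff 0) x.2) = _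
  rw [h1, ell_add, ell_sum]
  simp only [ell_C_mul]

/-- covering -/
lemma fam_cover {P : Type} [Finite P] {b : ZMod p} (hb : b ≠ 0) (G : P → (ZMod p)[X]) {m s d : ℕ}
    (hm : s + d = m) (x : P) (hG : (G x).Monic) (hd : (G x).natDegree = d)
    (a : Fin m → ZMod p) (h : G x ∣ pol b a) : 1 ≤ wt (Fam b G m s) a := by
  obtain ⟨g, hg⟩ := h
  have hgm : g.Monic := hG.of_mul_monic_left (by rw [← hg]; exact pol_monic b a)
  have h1 : (pol b a).natDegree = m + 1 := pol_natDegree b a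
  have hgd : g.natDegree = s + 1 := by
    rw [hg, hG.natDegree_mul hgm, hd] at h1
    omega
  have h2 : (G x).coeff 0 * g.coeff 0 = b := by
    rw [← mul_coeff_zero, ← hg, pol_coeff_zero]
  have h3 : (G x).coeff 0 ≠ 0 := by
    intro h
    rw [h, zero_mul] at h2
    exact hb h2.symm
  have h4 : g.coeff 0 = b / (G x).coeff 0 := by
    rw [← h2]
    field_simp
  have h5 := eq_pol g hgm hgd
  have h6 : Fam b G m s (x, fun i : Fin s => g.coeff ((i : ℕ) + 1)) = a := by
    funext i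
    show (G x * pol (b / (G x).coeff 0) (fun i : Fin s => g.coeff ((i : ℕ) + 1))).coeff _ = _
    rw [← h4, ← h5, ← hg, pol_coeff_succ]
  rw [← h6]
  exact wt_ge _ _

/-- number of roots -/
lemma card_roots_le (Q : (ZMod p)[X]) (n : ℕ) (hQ : Q ≠ 0) (hn : Q.natDegree ≤ n) :
    {t : ZMod p | Q.eval t = 0}.ncard ≤ n := by
  classical
  have h1 : {t : ZMod p | Q.eval t = 0} = (Q.roots.toFinset : Set (ZMod p)) := by
    ext t
    simp [hQ]
  rw [h1, Set.ncard_coe_finset]
  exact (Multiset.toFinset_card_le _).trans ((card_roots' Q).trans hn)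

end

end Pool.Agent.H36.GF
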