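import Pool.Agent.H36.GF.FWB

/-! # MP_cd65c5_nt: counting for the Fourier transforms of the weights -/

set_option autoImplicit false

namespace Pool.Agent.H36.GF

open Pool.Agent.H7.GF Polynomial

section

variable {p : ℕ} [Fact p.Prime]

lemma natCast_ne {n : ℕ} (h0 : 0 < n) (hn : n < p) : ((n : ℕ) : ZMod p) ≠ 0 := by
  intro h
  rw [ZMod.natCast_eq_zero_iff] at h
  exact absurd (Nat.le_of_dvd h0 h) (by omega)

lemma two_ne (hp : 7 < p) : (2 : ZMod p) ≠ 0 := by exact_mod_cast natCast_ne (n := 2) (by omega) (by omega)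

lemma three_ne (hp : 7 < p) : (3 : ZMod p) ≠ 0 := by
  exact_mod_cast natCast_ne (n := 3) (by omega) (by omega)

/-- cubes of linear polynomials -/
noncomputable def G2 (r : (ZMod p)ˣ) : (ZMod p)[X] := (X - C (r : ZMod p)) ^ 3

lemma G2_monic (r : (ZMod p)ˣ) : (G2 r).Monic := (monic_X_sub_C _).pow 3

lemma G2_natDegree (r : (ZMod p)ˣ) : (G2 r).natDegree = 3 := by
  rw [G2, (monic_X_sub_C _).natDegree_pow, natDegree_X_sub_C]

lemma ell_G2 {m : ℕ} (k : Fin m → ZMod p) (r : (ZMod p)ˣ) (j : ℕ) (hj : j + 3 < m) :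
    ell k (G2 r * X ^ (j + 1)) = k ⟨j + 3, hj⟩ + (-3 * r) * k ⟨j + 2, by omega⟩ +
      (3 * r ^ 2) * k ⟨j + 1, by omega⟩ + (-r ^ 3) * k ⟨j, by omega⟩ := by
  have h1 : G2 r * X ^ (j + 1) = X ^ (j + 3 + 1) + C (-3 * (r : ZMod p)) * X ^ (j + 2 + 1) +
      C (3 * (r : ZMod p) ^ 2) * X ^ (j + 1 + 1) + C (-(r : ZMod p) ^ 3) * X ^ (j + 1) := by
    simp only [G2, C_mul, C_neg, C_pow, C_ofNat]
    ring
  rw [h1, ell_add, ell_add, ell_add, ell_C_mul, ell_C_mul, ell_C_mul, ell_X_pow k _ hj,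
    ell_X_pow k _ (by omega : j + 2 < m), ell_X_pow k _ (by omega : j + 1 < m),
    ell_X_pow k _ (by omega : j < m)]

lemma cnt_G2 (hp : 7 < p) {m s : ℕ} (hs : 1 ≤ s) (hm : s + 3 = m) {k : Fin m → ZMod p}
    (hk : k ≠ 0) :
    {r : (ZMod p)ˣ | ∀ j : Fin s, ell k (G2 r * X ^ ((j : ℕ) + 1)) = 0}.ncard ≤ 3 := by
  obtain ⟨i, hi⟩ : ∃ i, k i ≠ 0 := by
    by_contra h
    push Not at h
    exact hk (funext h)
  obtain ⟨j, hj, hji, hij⟩ : ∃ j, j < s ∧ j ≤ (i : ℕ) ∧ (i : ℕ) ≤ j + 3 := by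
    by_cases h : (i : ℕ) < s
    · exact ⟨i, h, le_rfl, by omega⟩
    · exact ⟨s - 1, by omega, by omega, by have := i.2; omega⟩
  set Q : (ZMod p)[X] := C (k ⟨j + 3, by omega⟩) + C (-3 * k ⟨j + 2, by omega⟩) * X +
    C (3 * k ⟨j + 1, by omega⟩) * X ^ 2 + C (- k ⟨j, by omega⟩) * X ^ 3 with hQ
  have hQd : Q.natDegree ≤ 3 := by
    rw [hQ]
    compute_degree
  have h3 := three_ne hp
  have hQ0 : Q ≠ 0 := by
    intro h
    have c0 : Q.coeff 0 = 0 := by rw [h, coeff_zero]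
    have c1 : Q.coeff 1 = 0 := by rw [h, coeff_zero]
    have c2 : Q.coeff 2 = 0 := by rw [h, coeff_zero]
    have c3 : Q.coeff 3 = 0 := by rw [h, coeff_zero]
    simp only [hQ, coeff_add, coeff_C_mul, coeff_C, coeff_X_pow, coeff_X] at c0 c1 c2 c3
    norm_num at c0 c1 c2 c3
    have hi4 : (i : ℕ) = j ∨ (i : ℕ) = j + 1 ∨ (i : ℕ) = j + 2 ∨ (i : ℕ) = j + 3 := by omega
    rcases hi4 with e | e | e | e
    · apply hi
      rw [← c3]
      congr 1
      exact Fin.ext e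
    · rcases c2 with c2 | c2
      · exact h3 c2
      · apply hi
        rw [← c2]
        congr 1
        exact Fin.ext e
    · rcases c1 with c1 | c1
      · exact h3 c1
      · apply hi
        rw [← c1]
        congr 1
        exact Fin.ext e
    · apply hi
      rw [← c0]
      congr 1
      exact Fin.ext e
  refine le_trans ?_ (card_roots_le Q 3 hQ0 hQd)
  apply Set.ncard_le_ncard_of_injOn (fun r : (ZMod p)ˣ => (r : ZMod p))
  · intro r hr
    have h4 := hr ⟨j, hj⟩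
    rw [ell_G2 k r j (by omega)] at h4
    show Q.eval (r : ZMod p) = 0
    rw [← h4, hQ]
    simp only [eval_add, eval_mul, eval_C, eval_X, eval_pow]
    ring
  · exact fun a _ b _ h => Units.ext h

/-- squares of quadratic polynomials -/
noncomputable def G1 (x : ZMod p × (ZMod p)ˣ) : (ZMod p)[X] :=
  (X ^ 2 + C x.1 * X + C (x.2 : ZMod p)) ^ 2

lemma quad_monic (u v : ZMod p) : (X ^ 2 + C u * X + C v : (ZMod p)[X]).Monic ∧
    (X ^ 2 + C u * X + C v : (ZMod p)[X]).natDegree = 2 := by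
  constructor
  · monicity!
  · compute_degree!

lemma G1_monic (x : ZMod p × (ZMod p)ˣ) : (G1 x).Monic := (quad_monic _ _).1.pow 2

lemma G1_natDegree (x : ZMod p × (ZMod p)ˣ) : (G1 x).natDegree = 4 := by
  rw [G1, (quad_monic _ _).1.natDegree_pow, (quad_monic _ _).2]

lemma ell_G1 {m : ℕ} (k : Fin m → ZMod p) (x : ZMod p × (ZMod p)ˣ) (j : ℕ) (hj : j + 4 < m) :
    ell k (G1 x * X ^ (j + 1)) = k ⟨j + 4, hj⟩ + (2 * x.1) * k ⟨j + 3, by omega⟩ +
      (x.1 ^ 2 + 2 * x.2) * k ⟨j + 2, by omega⟩ + (2 * x.1 * x.2) * k ⟨j + 1, by omega⟩ +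
      (x.2 : ZMod p) ^ 2 * k ⟨j, by omega⟩ := by
  have h1 : G1 x * X ^ (j + 1) = X ^ (j + 4 + 1) + C (2 * x.1) * X ^ (j + 3 + 1) +
      C (x.1 ^ 2 + 2 * (x.2 : ZMod p)) * X ^ (j + 2 + 1) +
      C (2 * x.1 * (x.2 : ZMod p)) * X ^ (j + 1 + 1) + C ((x.2 : ZMod p) ^ 2) * X ^ (j + 1) := by
    simp only [G1, C_mul, C_add, C_pow, C_ofNat]
    ring
  rw [h1, ell_add, ell_add, ell_add, ell_add, ell_C_mul, ell_C_mul, ell_C_mul, ell_C_mul,
    ell_X_pow k _ hj, ell_X_pow k _ (by omega : j + 3 < m), ell_X_pow k _ (by omega : j + 2 < m),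
    ell_X_pow k _ (by omega : j + 1 < m), ell_X_pow k _ (by omega : j < m)]

lemma cnt_uv (hp : 7 < p) (κ0 κ1 κ2 κ3 κ4 : ZMod p)
    (h : ¬ (κ0 = 0 ∧ κ1 = 0 ∧ κ2 = 0 ∧ κ3 = 0 ∧ κ4 = 0)) :
    {x : ZMod p × ZMod p | κ4 + (2 * x.1) * κ3 + (x.1 ^ 2 + 2 * x.2) * κ2 +
      (2 * x.1 * x.2) * κ1 + x.2 ^ 2 * κ0 = 0}.ncard ≤ 3 * p := by
  classical
  have h2 := two_ne hp
  set bad : ZMod p → Prop := fun u => κ0 = 0 ∧ κ2 + u * κ1 = 0 ∧ κ4 + 2 * u * κ3 + u ^ 2 * κ2 = 0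
    with hbad
  have h1 : {x : ZMod p × ZMod p | κ4 + (2 * x.1) * κ3 + (x.1 ^ 2 + 2 * x.2) * κ2 +
      (2 * x.1 * x.2) * κ1 + x.2 ^ 2 * κ0 = 0} = ((Finset.univ.filter fun x : ZMod p × ZMod p =>
      κ4 + (2 * x.1) * κ3 + (x.1 ^ 2 + 2 * x.2) * κ2 + (2 * x.1 * x.2) * κ1 + x.2 ^ 2 * κ0 = 0) :
      Set (ZMod p × ZMod p)) := by
    ext x
    simp
  rw [h1, Set.ncard_coe_finset, Finset.card_eq_sum_card_fiberwise (f := Prod.fst)
    (t := Finset.univ) (fun _ _ => Finset.mem_coe.2 (Finset.mem_univ _))]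
  have h3 : ∀ u : ZMod p, ((Finset.univ.filter fun x : ZMod p × ZMod p =>
      κ4 + (2 * x.1) * κ3 + (x.1 ^ 2 + 2 * x.2) * κ2 + (2 * x.1 * x.2) * κ1 +
      x.2 ^ 2 * κ0 = 0).filter fun x => x.1 = u).card ≤ 2 + if bad u then p else 0 := by
    intro u
    by_cases hb : bad u
    · rw [if_pos hb]
      refine le_trans (Finset.card_le_card_of_injOn Prod.snd (t := Finset.univ)
        (fun _ _ => Finset.mem_coe.2 (Finset.mem_univ _)) ?_) ?_
      · intro a ha b hb h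
        have e1 : a.1 = u := (Finset.mem_filter.1 (Finset.mem_coe.1 ha)).2
        have e2 : b.1 = u := (Finset.mem_filter.1 (Finset.mem_coe.1 hb)).2
        exact Prod.ext (e1.trans e2.symm) h
      · rw [Finset.card_univ, ZMod.card]
        omega
    · rw [if_neg hb, add_zero]
      set Q : (ZMod p)[X] := C (κ4 + 2 * u * κ3 + u ^ 2 * κ2) + C (2 * (κ2 + u * κ1)) * X +
        C κ0 * X ^ 2 with hQ
      have hQd : Q.natDegree ≤ 2 := by
        rw [hQ]
        compute_degree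
      have hQ0 : Q ≠ 0 := by
        intro h
        have c0 : Q.coeff 0 = 0 := by rw [h, coeff_zero]
        have c1 : Q.coeff 1 = 0 := by rw [h, coeff_zero]
        have c2 : Q.coeff 2 = 0 := by rw [h, coeff_zero]
        simp only [hQ, coeff_add, coeff_C_mul, coeff_C, coeff_X_pow, coeff_X] at c0 c1 c2
        norm_num at c0 c1 c2
        refine hb ⟨c2, ?_, c0⟩
        rcases c1 with c1 | c1
        · exact absurd c1 h2
        · exact c1
      have h4 := card_roots_le Q 2 hQ0 hQd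
      refine le_trans ?_ h4
      rw [← Set.ncard_coe_finset]
      apply Set.ncard_le_ncard_of_injOn Prod.snd
      · intro x hx
        have hx' := Finset.mem_filter.1 (Finset.mem_coe.1 hx)
        have e1 := (Finset.mem_filter.1 hx'.1).2
        show Q.eval x.2 = 0
        rw [← e1, hx'.2, hQ]
        simp only [eval_add, eval_mul, eval_C, eval_X, eval_pow]
        ring
      · intro a ha b hb h
        have e1 : a.1 = u := (Finset.mem_filter.1 (Finset.mem_coe.1 ha)).2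
        have e2 : b.1 = u := (Finset.mem_filter.1 (Finset.mem_coe.1 hb)).2
        exact Prod.ext (e1.trans e2.symm) h
  refine (Finset.sum_le_sum fun u _ => h3 u).trans ?_
  rw [Finset.sum_add_distrib, Finset.sum_const, Finset.card_univ, ZMod.card, smul_eq_mul,
    ← Finset.sum_filter, Finset.sum_const, smul_eq_mul]
  have h5 : (Finset.univ.filter fun u => bad u).card ≤ 1 := by
    rw [Finset.card_le_one]
    intro a ha b hb
    obtain ⟨a0, a1, a2⟩ := (Finset.mem_filter.1 ha).2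
    obtain ⟨b0, b1, b2⟩ := (Finset.mem_filter.1 hb).2
    by_contra hab
    have hab' : a - b ≠ 0 := sub_ne_zero.2 hab
    have e1 : κ1 = 0 := by
      have : (a - b) * κ1 = 0 := by linear_combination a1 - b1
      exact (mul_eq_zero.1 this).resolve_left hab'
    have e2 : κ2 = 0 := by rw [e1] at a1; simpa using a1
    have e3 : κ3 = 0 := by
      have : (a - b) * (2 * κ3) = 0 := by
        rw [e2] at a2 b2
        linear_combination a2 - b2
      rcases mul_eq_zero.1 this with h | h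
      · exact absurd h hab'
      · exact (mul_eq_zero.1 h).resolve_left h2
    have e4 : κ4 = 0 := by rw [e2, e3] at a2; simpa using a2
    exact h ⟨a0, e1, e2, e3, e4⟩
  nlinarith

lemma cnt_G1 (hp : 7 < p) {m s : ℕ} (hs : 1 ≤ s) (hm : s + 4 = m) {k : Fin m → ZMod p}
    (hk : k ≠ 0) :
    {x : ZMod p × (ZMod p)ˣ | ∀ j : Fin s, ell k (G1 x * X ^ ((j : ℕ) + 1)) = 0}.ncard ≤ 3 * p := by
  obtain ⟨i, hi⟩ : ∃ i, k i ≠ 0 := by
    by_contra h
    push Not at h
    exact hk (funext h)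
  obtain ⟨j, hj, hji, hij⟩ : ∃ j, j < s ∧ j ≤ (i : ℕ) ∧ (i : ℕ) ≤ j + 4 := by
    by_cases h : (i : ℕ) < s
    · exact ⟨i, h, le_rfl, by omega⟩
    · exact ⟨s - 1, by omega, by omega, by have := i.2; omega⟩
  refine le_trans ?_ (cnt_uv hp (k ⟨j, by omega⟩) (k ⟨j + 1, by omega⟩) (k ⟨j + 2, by omega⟩)
    (k ⟨j + 3, by omega⟩) (k ⟨j + 4, by omega⟩) ?_)
  · apply Set.ncard_le_ncard_of_injOn (fun x : ZMod p × (ZMod p)ˣ => (x.1, (x.2 : ZMod p)))
    · intro x hx
      have h4 := hx ⟨j, hj⟩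
      rw [ell_G1 k x j (by omega)] at h4
      exact h4
    · intro a _ b _ h
      have h1 := congrArg Prod.fst h
      have h2 := congrArg Prod.snd h
      exact Prod.ext h1 (Units.ext h2)
  · rintro ⟨c0, c1, c2, c3, c4⟩
    have hi5 : (i : ℕ) = j ∨ (i : ℕ) = j + 1 ∨ (i : ℕ) = j + 2 ∨ (i : ℕ) = j + 3 ∨
      (i : ℕ) = j + 4 := by omega
    rcases hi5 with e | e | e | e | e
    · exact hi (by rw [← c0]; congr 1; exact Fin.ext e)
    · exact hi (by rw [← c1]; congr 1; exact Fin.ext e)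
    · exact hi (by rw [← c2]; congr 1; exact Fin.ext e)
    · exact hi (by rw [← c3]; congr 1; exact Fin.ext e)
    · exact hi (by rw [← c4]; congr 1; exact Fin.ext e)

end

end Pool.Agent.H36.GF
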