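import Pool.Agent.H36.GF.Moment

/-! # MP_cd65c5_nt, module MORD: Mordell's elementary bound -/

set_option autoImplicit false

namespace Pool.Agent.H36.GF

open Pool.Agent.H7.GF

section

variable {p : ℕ} [Fact p.Prime]

/-- the monomials -/
def ph (r : (ZMod p)ˣ) : Fin 3 ⊕ Fin 3 → ZMod p :=
  Sum.elim (fun i => (r : ZMod p) ^ ((i : ℕ) + 1))
    (fun i => ((r⁻¹ : (ZMod p)ˣ) : ZMod p) ^ ((i : ℕ) + 1))

/-- the exponential sum -/
noncomputable def MS (w : Fin 3 ⊕ Fin 3 → ZMod p) : ℂ :=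
  ∑ r : (ZMod p)ˣ, ZMod.stdAddChar (∑ i, w i * ph r i)

/-- scaling -/
def act (t : (ZMod p)ˣ) (w : Fin 3 ⊕ Fin 3 → ZMod p) : Fin 3 ⊕ Fin 3 → ZMod p :=
  fun i => w i * ph t i

lemma ph_mul (t r : (ZMod p)ˣ) (i : Fin 3 ⊕ Fin 3) : ph (t * r) i = ph t i * ph r i := by
  cases i with
  | inl i =>
    show ((t * r : (ZMod p)ˣ) : ZMod p) ^ ((i : ℕ) + 1) = _ * _
    rw [Units.val_mul, mul_pow]
    rfl
  | inr i =>
    show (((t * r)⁻¹ : (ZMod p)ˣ) : ZMod p) ^ ((i : ℕ) + 1) = _ * _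
    rw [mul_inv, Units.val_mul, mul_pow]
    rfl

lemma MS_act (t : (ZMod p)ˣ) (w : Fin 3 ⊕ Fin 3 → ZMod p) : MS (act t w) = MS w := by
  unfold MS
  refine Fintype.sum_equiv (Equiv.mulLeft t) _ _ fun r => ?_
  congr 1
  refine Finset.sum_congr rfl fun i _ => ?_
  rw [Equiv.coe_mulLeft, ph_mul, act]
  ring

/-- few units with the same power -/
lemma card_pow_eq (j : ℕ) (hj : 0 < j) (s : (ZMod p)ˣ) :
    (Finset.univ.filter fun t : (ZMod p)ˣ => (t : ZMod p) ^ j = (s : ZMod p) ^ j).card ≤ j := by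
  classical
  have h1 : ((Finset.univ.filter fun t : (ZMod p)ˣ => (t : ZMod p) ^ j = (s : ZMod p) ^ j).image
      (fun t : (ZMod p)ˣ => (t : ZMod p))) ⊆
      (Polynomial.nthRoots j ((s : ZMod p) ^ j)).toFinset := by
    intro x hx
    obtain ⟨t, ht, rfl⟩ := Finset.mem_image.1 hx
    rw [Multiset.mem_toFinset, Polynomial.mem_nthRoots hj]
    exact (Finset.mem_filter.1 ht).2
  have h2 := Finset.card_le_card h1
  rw [Finset.card_image_of_injective _ Units.val_injective] at h2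
  exact h2.trans ((Multiset.toFinset_card_le _).trans (Polynomial.card_nthRoots _ _))

lemma card_orbit {w : Fin 3 ⊕ Fin 3 → ZMod p} (hw : ∃ i, w i ≠ 0) :
    Fintype.card (ZMod p)ˣ ≤ 3 * (Finset.univ.image fun t : (ZMod p)ˣ => act t w).card := by
  classical
  rw [← Finset.card_univ]
  apply Finset.card_le_mul_card_image
  intro a ha
  obtain ⟨s, -, rfl⟩ := Finset.mem_image.1 ha
  obtain ⟨i, hi⟩ := hw
  have h1 : ∃ j : ℕ, 0 < j ∧ j ≤ 3 ∧ ∀ t : (ZMod p)ˣ, act t w = act s w →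
      (t : ZMod p) ^ j = (s : ZMod p) ^ j := by
    cases i with
    | inl i =>
      refine ⟨(i : ℕ) + 1, by omega, by omega, fun t ht => ?_⟩
      have := congrFun ht (Sum.inl i)
      exact mul_left_cancel₀ hi this
    | inr i =>
      refine ⟨(i : ℕ) + 1, by omega, by omega, fun t ht => ?_⟩
      have h2 := congrFun ht (Sum.inr i)
      have h3 : ((t⁻¹ : (ZMod p)ˣ) : ZMod p) ^ ((i : ℕ) + 1) =
        ((s⁻¹ : (ZMod p)ˣ) : ZMod p) ^ ((i : ℕ) + 1) := mul_left_cancel₀ hi h2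
      rw [Units.val_inv_eq_inv_val, Units.val_inv_eq_inv_val, inv_pow, inv_pow] at h3
      exact inv_injective h3
  obtain ⟨j, hj0, hj3, h2⟩ := h1
  refine le_trans (Finset.card_le_card ?_) ((card_pow_eq j hj0 s).trans hj3)
  intro t ht
  rw [Finset.mem_filter] at ht ⊢
  exact ⟨Finset.mem_univ _, h2 t ht.2⟩

lemma mord_aux {K : ℕ} (hK : {x : (Fin 6 → (ZMod p)ˣ) × (Fin 6 → (ZMod p)ˣ) | ∀ j : ℕ, 1 ≤ j → j ≤ 3 →
    ∑ i, ((x.1 i : (ZMod p)ˣ) : ZMod p) ^ j = ∑ i, ((x.2 i : (ZMod p)ˣ) : ZMod p) ^ j ∧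
    ∑ i, (((x.1 i)⁻¹ : (ZMod p)ˣ) : ZMod p) ^ j = ∑ i, (((x.2 i)⁻¹ : (ZMod p)ˣ) : ZMod p) ^ j}.ncard
    ≤ K * p ^ 6) {w : Fin 3 ⊕ Fin 3 → ZMod p} (hw : ∃ i, w i ≠ 0) :
    ‖MS w‖ ^ 12 ≤ 6 * K * (p : ℝ) ^ 11 := by
  classical
  have h1 := moment (p := p) ph 6
  have h2 : ({x : (Fin 6 → (ZMod p)ˣ) × (Fin 6 → (ZMod p)ˣ) |
      (fun i => ∑ l, ph (x.1 l) i) = fun i => ∑ l, ph (x.2 l) i}.ncard : ℝ) ≤ K * (p : ℝ) ^ 6 := by
    have e : (K * (p : ℝ) ^ 6) = ((K * p ^ 6 : ℕ) : ℝ) := by rw [Nat.cast_mul, Nat.cast_pow]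
    rw [e]
    refine Nat.cast_le.2 (le_trans ?_ hK)
    apply Set.ncard_le_ncard _ (Set.toFinite _)
    intro x hx j hj1 hj3
    obtain ⟨i, rfl⟩ : ∃ i : Fin 3, j = (i : ℕ) + 1 := ⟨⟨j - 1, by omega⟩, by simp; omega⟩
    exact ⟨congrFun hx (Sum.inl i), congrFun hx (Sum.inr i)⟩
  have h3 : ((Finset.univ.image fun t : (ZMod p)ˣ => act t w).card : ℝ) * ‖MS w‖ ^ 12 ≤
      ∑ u : Fin 3 ⊕ Fin 3 → ZMod p, ‖MS u‖ ^ 12 := by
    calc ((Finset.univ.image fun t : (ZMod p)ˣ => act t w).card : ℝ) * ‖MS w‖ ^ 12 =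
        ∑ u ∈ Finset.univ.image fun t : (ZMod p)ˣ => act t w, ‖MS u‖ ^ 12 := by
          rw [← nsmul_eq_mul, ← Finset.sum_const]
          refine Finset.sum_congr rfl fun u hu => ?_
          obtain ⟨t, -, rfl⟩ := Finset.mem_image.1 hu
          rw [MS_act]
      _ ≤ _ := Finset.sum_le_sum_of_subset_of_nonneg (Finset.subset_univ _)
          fun _ _ _ => by positivity
  have h4 : ∑ u : Fin 3 ⊕ Fin 3 → ZMod p, ‖MS u‖ ^ 12 ≤ (p : ℝ) ^ 6 * (K * (p : ℝ) ^ 6) := by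
    have e : Fintype.card (Fin 3 ⊕ Fin 3) = 6 := by simp
    rw [e] at h1
    unfold MS
    have h5 : (2 * 6 : ℕ) = 12 := by norm_num
    rw [h5] at h1
    rw [h1]
    exact mul_le_mul_of_nonneg_left h2 (by positivity)
  have h5 := card_orbit hw
  rw [ZMod.card_units] at h5
  have hp2 : 2 ≤ p := (Fact.out : p.Prime).two_le
  have h6 : (p : ℝ) / 2 ≤ 3 * ((Finset.univ.image fun t : (ZMod p)ˣ => act t w).card : ℝ) := by
    have h7 : ((p - 1 : ℕ) : ℝ) ≤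
        3 * ((Finset.univ.image fun t : (ZMod p)ˣ => act t w).card : ℝ) := by exact_mod_cast h5
    rw [Nat.cast_sub (by omega)] at h7
    have h8 : (2 : ℝ) ≤ p := by exact_mod_cast hp2
    push_cast at h7
    linarith
  have hp0 : (0 : ℝ) < p := by positivity
  have h7 : (p : ℝ) / 2 * ‖MS w‖ ^ 12 ≤ 3 * ((p : ℝ) ^ 6 * (K * (p : ℝ) ^ 6)) := by
    calc (p : ℝ) / 2 * ‖MS w‖ ^ 12 ≤
        3 * ((Finset.univ.image fun t : (ZMod p)ˣ => act t w).card : ℝ) * ‖MS w‖ ^ 12 :=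
          mul_le_mul_of_nonneg_right h6 (by positivity)
      _ = 3 * (((Finset.univ.image fun t : (ZMod p)ˣ => act t w).card : ℝ) * ‖MS w‖ ^ 12) := by ring
      _ ≤ _ := by
        have := h3.trans h4
        linarith
  have h8 : (p : ℝ) * ‖MS w‖ ^ 12 ≤ (p : ℝ) * (6 * K * (p : ℝ) ^ 11) := by
    nlinarith [h7]
  exact le_of_mul_le_mul_left h8 hp0

end

theorem mord (h : T_MCNT) : T_MORD := by
  obtain ⟨K, hK⟩ := h
  refine ⟨6 * K + 1, fun p _ hp c d hcd => ?_⟩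
  have h1 : ∑ r : (ZMod p)ˣ, ZMod.stdAddChar (∑ i : Fin 3, c i * (r : ZMod p) ^ ((i : ℕ) + 1) +
      ∑ i : Fin 3, d i * ((r⁻¹ : (ZMod p)ˣ) : ZMod p) ^ ((i : ℕ) + 1)) = MS (Sum.elim c d) := by
    refine Finset.sum_congr rfl fun r _ => ?_
    rw [Fintype.sum_sum_type]
    rfl
  rw [h1]
  have hw : ∃ i, (Sum.elim c d) i ≠ 0 := by
    rcases hcd with ⟨i, hi⟩ | ⟨i, hi⟩
    · exact ⟨Sum.inl i, hi⟩
    · exact ⟨Sum.inr i, hi⟩
  have h2 := mord_aux (hK p hp) hw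
  have hp0 : (0 : ℝ) ≤ p := by positivity
  have h3 : ((6 * K + 1) * (p : ℝ) ^ (11 / 12 : ℝ)) ^ 12 = (6 * K + 1) ^ 12 * (p : ℝ) ^ 11 := by
    rw [mul_pow, ← Real.rpow_natCast ((p : ℝ) ^ (11 / 12 : ℝ)) 12, ← Real.rpow_mul hp0]
    norm_num
  have h4 : (6 * (K : ℝ)) ≤ (6 * K + 1) ^ 12 := by
    have h5 : (1 : ℝ) ≤ 6 * K + 1 := by
      have : (0 : ℝ) ≤ K := by positivity
      linarith
    have h6 : (6 * (K : ℝ) + 1) ^ 1 ≤ (6 * K + 1) ^ 12 := pow_le_pow_right₀ h5 (by norm_num)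
    linarith
  refine le_of_pow_le_pow_left₀ (n := 12) (by norm_num) (by positivity) ?_
  rw [h3]
  exact h2.trans (mul_le_mul_of_nonneg_right h4 (by positivity))

end Pool.Agent.H36.GF
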