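import Pool.Agent.H7.GF.Targets3

/-! # MP_cd65c5_nt: moments of exponential sums -/

set_option autoImplicit false

namespace Pool.Agent.H36.GF

open Pool.Agent.H7.GF

section

variable {p : ℕ} [Fact p.Prime]

lemma psi_sum {ι : Type} (s : Finset ι) (f : ι → ZMod p) :
    ZMod.stdAddChar (∑ i ∈ s, f i) = ∏ i ∈ s, ZMod.stdAddChar (f i) := by
  classical
  induction s using Finset.induction_on with
  | empty => simp
  | insert a s ha ih => rw [Finset.sum_insert ha, Finset.prod_insert ha, AddChar.map_add_eq_mul, ih]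

/-- orthogonality in one variable -/
lemma orth1 (D : ZMod p) : ∑ t : ZMod p, ZMod.stdAddChar (t * D) = if D = 0 then (p : ℂ) else 0 := by
  have := AddChar.sum_mulShift D (ZMod.isPrimitive_stdAddChar p)
  rw [this, ZMod.card]
  split_ifs <;> simp

/-- orthogonality in several variables -/
lemma orth {ι : Type} [Fintype ι] [DecidableEq ι] (D : ι → ZMod p) :
    ∑ w : ι → ZMod p, ZMod.stdAddChar (∑ i, w i * D i) =
      if D = 0 then (p : ℂ) ^ (Fintype.card ι) else 0 := by
  have h1 : ∀ w : ι → ZMod p, ZMod.stdAddChar (∑ i, w i * D i) =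
      ∏ i, ZMod.stdAddChar (w i * D i) := fun w => psi_sum _ _
  simp only [h1]
  have h2 := (Finset.prod_univ_sum (fun _ : ι => (Finset.univ : Finset (ZMod p)))
    (fun (i : ι) (t : ZMod p) => ZMod.stdAddChar (t * D i))).symm
  rw [Fintype.piFinset_univ] at h2
  rw [h2]
  simp only [orth1]
  split_ifs with h
  · subst h
    simp
  · obtain ⟨i, hi⟩ : ∃ i, D i ≠ 0 := by
      by_contra h3
      push Not at h3
      exact h (funext h3)
    exact Finset.prod_eq_zero (Finset.mem_univ i) (if_neg hi)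

/-- the moment of order `2 k` -/
lemma moment {ι A : Type} [Fintype ι] [DecidableEq ι] [Fintype A] (φ : A → ι → ZMod p) (k : ℕ) :
    ∑ w : ι → ZMod p, ‖∑ a, ZMod.stdAddChar (∑ i, w i * φ a i)‖ ^ (2 * k) =
      (p : ℝ) ^ (Fintype.card ι) * ({x : (Fin k → A) × (Fin k → A) |
        (fun i => ∑ l, φ (x.1 l) i) = fun i => ∑ l, φ (x.2 l) i}.ncard : ℝ) := by
  classical
  have h1 : ∀ w : ι → ZMod p, ((‖∑ a, ZMod.stdAddChar (∑ i, w i * φ a i)‖ ^ (2 * k) : ℝ) : ℂ) =
      ∑ x : (Fin k → A) × (Fin k → A), ZMod.stdAddChar (∑ i, w i *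
        ((∑ l, φ (x.1 l) i) - ∑ l, φ (x.2 l) i)) := by
    intro w
    set z : ℂ := ∑ a, ZMod.stdAddChar (∑ i, w i * φ a i) with hz
    have e1 : ((‖z‖ ^ (2 * k) : ℝ) : ℂ) = z ^ k * (starRingEnd ℂ z) ^ k := by
      rw [← mul_pow, Complex.mul_conj, Complex.normSq_eq_norm_sq, pow_mul]
      push_cast
      rfl
    have e2 : starRingEnd ℂ z = ∑ a, ZMod.stdAddChar (-(∑ i, w i * φ a i)) := by
      rw [hz, map_sum]
      exact Finset.sum_congr rfl fun a _ => (AddChar.map_neg_eq_conj _ _).symm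
    rw [e1, e2, hz, Fintype.sum_pow, Fintype.sum_pow, Fintype.sum_mul_sum, ← Finset.univ_product_univ,
      Finset.sum_product]
    refine Finset.sum_congr rfl fun x _ => Finset.sum_congr rfl fun y _ => ?_
    rw [← psi_sum, ← psi_sum, ← AddChar.map_add_eq_mul]
    congr 1
    simp only [mul_sub, Finset.mul_sum, Finset.sum_sub_distrib, Finset.sum_neg_distrib]
    rw [Finset.sum_comm, Finset.sum_comm (s := (Finset.univ : Finset (Fin k)))]
    ring
  have h2 : ((∑ w : ι → ZMod p, ‖∑ a, ZMod.stdAddChar (∑ i, w i * φ a i)‖ ^ (2 * k) : ℝ) : ℂ) =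
      (((p : ℝ) ^ (Fintype.card ι) * ({x : (Fin k → A) × (Fin k → A) |
        (fun i => ∑ l, φ (x.1 l) i) = fun i => ∑ l, φ (x.2 l) i}.ncard : ℝ) : ℝ) : ℂ) := by
    rw [Complex.ofReal_sum]
    simp only [h1]
    rw [Finset.sum_comm]
    simp only [orth]
    rw [← Finset.sum_filter, Finset.sum_const, nsmul_eq_mul, mul_comm]
    push_cast
    congr 2
    rw [← Set.ncard_coe_finset]
    congr 1
    ext x
    simp only [Finset.coe_filter, Finset.mem_univ, true_and, Set.mem_ofPred_eq]
    constructor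
    · intro h
      funext i
      exact sub_eq_zero.1 (congrFun h i)
    · intro h
      funext i
      exact sub_eq_zero.2 (congrFun h i)
  exact_mod_cast h2

end

end Pool.Agent.H36.GF
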